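import Pool.Agent.H965Z.Dens.Final

/-!
Completeness of the density metric does not imply DOM over `RCA₀ + BΣ⁰₂` (hence not over `RCA₀`).
-/

namespace Pool.Agent.Results.MP_d53a0a_lc.ACompleteNotDOM

open Pool.Agent.Helper317.SOA Pool.Agent.H965Z.Dens

/-- There is a model of `RCA₀ + BΣ⁰₂` in which every Cauchy sequence for the density metric has a
limit and DOM fails. -/
theorem result : ∃ K : Model, RCA0 K ∧ BSigma 2 K ∧ Complete K ∧ ¬ DOM K := by
  obtain ⟨K, h1, h2, h3, h4, -⟩ := Pool.Agent.H965Z.Dens.main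
  exact ⟨K, h1, h2, h3, h4⟩

end Pool.Agent.Results.MP_d53a0a_lc.ACompleteNotDOM
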