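import Pool.Agent.H965Z.Dens.Final

/-!
Completeness of the density metric implies neither COH nor arithmetical induction over
`RCA₀ + BΣ⁰₂` (hence not over `RCA₀`).
-/

namespace Pool.Agent.Results.MP_d53a0a_lc.BCompleteNotCOHNotInd

open Pool.Agent.Helper317.SOA Pool.Agent.H965Z.Dens

/-- There is a model of `RCA₀ + BΣ⁰₂` in which every Cauchy sequence for the density metric has a
limit, COH fails and induction for arithmetical formulas fails. -/
theorem result : ∃ K : Model, RCA0 K ∧ BSigma 2 K ∧ Complete K ∧ ¬ COH K ∧ ¬ ArithInd K := by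
  obtain ⟨K, h1, h2, h3, -, h5, -, h7⟩ := Pool.Agent.H965Z.Dens.main
  exact ⟨K, h1, h2, h3, h5, h7⟩

end Pool.Agent.Results.MP_d53a0a_lc.BCompleteNotCOHNotInd
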